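import Pool.Agent.Helper42.TG.Defs

/-!
# Project TG (MP_a41896_nt): combinations with coefficients in rings `R c` which act on the points (CM included)

`R c = ℤ` gives the definitions of `TG/Defs.lean`.
-/

set_option autoImplicit false

open MvPolynomial

namespace Pool.Agent.Helper42.TG

open WeierstrassCurve Height
open Pool.Agent.Helper29.BL Pool.Agent.Helper92.Ru Pool.Agent.Helper42.SG
open Pool.Agent.Helper60.T3 (WL zd IP)
open Pool.Agent.Helper42.TN (NonIsog NoCM NotFlat)

noncomputable section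

/-- the combination `∑_(cl j = c) n_j w_j` in the class `c`, coefficients in `R c` -/
def cmbR {ι τ : Type} [DecidableEq ι] [Fintype τ] {R M : ι → Type} [∀ c, CommRing (R c)]
    [∀ c, AddCommGroup (M c)] (ac : ∀ c, R c →+* AddMonoid.End (M c)) (cl : τ → ι)
    (w : ∀ j, M (cl j)) (c : ι) (n : τ → R c) : M c :=
  ∑ j, if h : cl j = c then ac c (n j) (h ▸ w j : M c) else 0

/-- totally fast families -/
def TFamR {ι τ : Type} [DecidableEq ι] [Fintype τ] {R M : ι → Type} [∀ c, CommRing (R c)]
    [∀ c, AddCommGroup (M c)] (ac : ∀ c, R c →+* AddMonoid.End (M c)) (C : ∀ c, Set (M c))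
    (cl : τ → ι) (w : ∀ j, M (cl j)) : Prop :=
  ∀ (c : ι) (n : τ → R c), (∃ j, cl j = c ∧ n j ≠ 0) → cmbR ac cl w c n ∉ C c

/-- the rational points of `W` over `F(v)` are `φ v + c`, `φ ∈ R`, `c` constant, for all algebraically closed fields `F ⊆ L` and all points `v` with
`xc v` transcendental over `F` -/
def EndL {K L : Type} [Field K] [Field L] [DecidableEq L] [Algebra K L] {R : Type} [CommRing R]
    (W : Affine K) (ac : R →+* AddMonoid.End (WL L W).Point) : Prop :=
  ∀ F : IntermediateField K L, IsAlgClosed F → ∀ v : (WL L W).Point, v ≠ 0 →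
    Transcendental F (xc v) → ∀ S : (WL L W).Point,
    IP (IntermediateField.adjoin F ({xc v, ps v} : Set L) : Set L) S →
    ∃ (φ : R) (c : (WL L W).Point), S = ac φ v + c ∧ IP (F : Set L) c

/-- **CLAIM with coefficients in `R c`** (captain helper60). `d c ρ` is the derivative of the endomorphism `ρ`. -/
def S_CLAIMR : Prop :=
  ∀ (K κ L : Type) [Field K] [CharZero K] [Field κ] [IsAlgClosed κ] [Field L] [IsAlgClosed L]
    [DecidableEq L] [Algebra K κ] [Algebra κ L] [Algebra K L] [IsScalarTower K κ L]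
    (ι : Type) [DecidableEq ι] (E : ι → Affine K), (∀ c, (E c).IsElliptic) →
    (∀ c c', c ≠ c' → NonIsog (E c) (E c')) →
    ∀ (R : ι → Type) [∀ c, CommRing (R c)] [∀ c, IsDomain (R c)] [∀ c, CharZero (R c)]
      (ac : ∀ c, R c →+* AddMonoid.End (WL L (E c)).Point) (d : ∀ c, R c →+* K),
      (∀ c, Function.Injective (d c)) →
      (∀ c ρ (D : Derivation K L L) (P : (WL L (E c)).Point),
        zd D (ac c ρ P) = algebraMap K L (d c ρ) * zd D P) →
      (∀ c ρ (F : IntermediateField K L) (P : (WL L (E c)).Point), IP (F : Set L) P →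
        IP (F : Set L) (ac c ρ P)) →
    ∀ (τ : Type) [Fintype τ] [DecidableEq τ]
    (cl : τ → ι), (∀ i k, i ≠ k → cl i = cl k → EndL (E (cl i)) (ac (cl i))) →
    ∀ w : ∀ j, (WL L (E (cl j))).Point,
    TFamR (M := fun c => (WL L (E c)).Point) ac
      (fun c => {P | IP (Set.range (algebraMap κ L)) P}) cl w →
    (∀ ρ < Fintype.card τ, ∀ (cl' : Fin ρ → ι) (n : ∀ i : Fin ρ, τ → R (cl' i)),
      TFamR (M := fun c => (WL L (E c)).Point) ac
        (fun c => {P | IP (Set.range (algebraMap κ L)) P})
        cl' (fun i => cmbR (M := fun c => (WL L (E c)).Point) ac cl w (cl' i) (n i)) →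
      AlgebraicIndependent κ
        (fun i => xc (cmbR (M := fun c => (WL L (E c)).Point) ac cl w (cl' i) (n i)))) →
    ¬ AlgebraicIndependent κ (fun j => xc (w j)) →
    ∀ (D : Derivation κ L L) (α : τ → κ),
      (∀ j, D (xc (w j)) = algebraMap κ L (α j) * ps (w j)) → α = 0

end

end Pool.Agent.Helper42.TG
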