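import Pool.Agent.Helper42.TG.DefsE
import Pool.Agent.Helper42.TG.DefsR
import Pool.Agent.Helper19.TG.PRa

/-!
# Project TG (MP_a41896_nt), CM version: endomorphisms, the statements

`Endo W`: the endomorphisms of `W` over `K` are the natural endomorphisms of the groups of points over the extension fields.
`EXR` gives for every `W` a subring `R ⊆ K` (the derivatives) which acts on the points over all fields.
-/

set_option autoImplicit false

open MvPolynomial

namespace Pool.Agent.Helper42.TG

open WeierstrassCurve Height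
open Pool.Agent.Helper29.BL Pool.Agent.Helper92.Ru Pool.Agent.Helper42.SG
open Pool.Agent.Helper60.HC (Lo nrs xs)
open Pool.Agent.Helper60.T3 (WL zd IP)
open Pool.Agent.Helper42.TN (NonIsog NoCM NotFlat)
open Pool.Agent.Helper19.TN (UD MAINW)

noncomputable section

/-- an endomorphism of `W` over `K`: endomorphisms of the groups of points over all extension fields of `K`, compatible with the
embeddings of the fields -/
structure Endo {K : Type} [Field K] (W : Affine K) : Type 1 where
  /-- the endomorphism of the group of `F`-points -/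
  f : ∀ (F : Type) [Field F] [DecidableEq F] [Algebra K F], (WL F W).Point →+ (WL F W).Point
  nat : ∀ (F F' : Type) [Field F] [DecidableEq F] [Algebra K F] [Field F'] [DecidableEq F']
    [Algebra K F'] (j : F →ₐ[K] F') (P : (WL F W).Point),
    f F' (Affine.Point.map (W' := W) j P) = Affine.Point.map (W' := W) j (f F P)

/-- all endomorphisms of `W` are defined over `K`: if `Ω ⊇ K` is algebraically closed and `(x, y)` is generic on `W` over `Ω`, then every
point of `W` with coordinates in `Ω(x, y)` is `ρ (x, y) + c`, `ρ` an endomorphism over `K`, `c` a point over `Ω` -/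
def EndsOverK {K : Type} [Field K] (W : Affine K) : Prop :=
  ∀ (Ω : Type) [Field Ω] [Algebra K Ω] [IsAlgClosed Ω] (F : Type) [Field F] [DecidableEq F]
    [Algebra K F] [Algebra Ω F] [IsScalarTower K Ω F] (x y : F)
    (h : (WL F W).Nonsingular x y), Transcendental Ω x →
    ∀ (x' y' : F) (h' : (WL F W).Nonsingular x' y'),
    x' ∈ IntermediateField.adjoin Ω ({x, y} : Set F) →
    y' ∈ IntermediateField.adjoin Ω ({x, y} : Set F) →
    ∃ (ρ : Endo W) (c : (WL F W).Point),
      (Affine.Point.some x' y' h' : (WL F W).Point) =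
        ρ.f F (Affine.Point.some x y h : (WL F W).Point) + c ∧
      (c = 0 ∨ ∃ (x₀ y₀ : Ω) (h₀ : (WL F W).Nonsingular (algebraMap Ω F x₀) (algebraMap Ω F y₀)),
        c = Affine.Point.some _ _ h₀)

/-- the ring `R ⊆ K` acts on the points of `W` over all extension fields by endomorphisms, `ρ ∈ R` has the derivative `ρ` -/
structure RAct {K : Type} [Field K] (W : Affine K) (R : Subring K)
    (ac : ∀ (F : Type) [Field F] [DecidableEq F] [Algebra K F],
      R →+* AddMonoid.End (WL F W).Point) : Prop where
  nat : ∀ (ρ : R) (F F' : Type) [Field F] [DecidableEq F] [Algebra K F] [Field F'] [DecidableEq F']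
    [Algebra K F'] (j : F →ₐ[K] F') (P : (WL F W).Point),
    ac F' ρ (Affine.Point.map (W' := W) j P) = Affine.Point.map (W' := W) j (ac F ρ P)
  dif : ∀ (ρ : R) (F : Type) [Field F] [DecidableEq F] [Algebra K F] (D : Derivation K F F)
    (P : (WL F W).Point), zd D (ac F ρ P) = algebraMap K F ρ * zd D P
  rat : ∀ ρ : R, ρ ≠ 0 → ∃ A B : Polynomial K, IsCoprime A B ∧ B.natDegree < A.natDegree ∧
    ∀ (F : Type) [Field F] [DecidableEq F] [Algebra K F] (P : (WL F W).Point), P ≠ 0 →
      (ac F ρ P = 0 ↔ Polynomial.aeval (xc P) B = 0) ∧ (ac F ρ P ≠ 0 →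
        xc (ac F ρ P) * Polynomial.aeval (xc P) B = Polynomial.aeval (xc P) A ∧
        algebraMap K F ρ * ps (ac F ρ P) * Polynomial.aeval (xc P) B ^ 2 =
          Polynomial.aeval (xc P) (Polynomial.derivative A * B - A * Polynomial.derivative B) *
            ps P)

/-- `R` contains all endomorphisms over all fields -/
def RAll {K : Type} [Field K] (W : Affine K) (R : Subring K)
    (ac : ∀ (F : Type) [Field F] [DecidableEq F] [Algebra K F],
      R →+* AddMonoid.End (WL F W).Point) : Prop :=
  ∀ (Ω : Type) [Field Ω] [Algebra K Ω] [IsAlgClosed Ω] (F : Type) [Field F] [DecidableEq F]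
    [Algebra K F] [Algebra Ω F] [IsScalarTower K Ω F] (x y : F)
    (h : (WL F W).Nonsingular x y), Transcendental Ω x →
    ∀ (x' y' : F) (h' : (WL F W).Nonsingular x' y'),
    x' ∈ IntermediateField.adjoin Ω ({x, y} : Set F) →
    y' ∈ IntermediateField.adjoin Ω ({x, y} : Set F) →
    ∃ (ρ : R) (c : (WL F W).Point),
      (Affine.Point.some x' y' h' : (WL F W).Point) =
        ac F ρ (Affine.Point.some x y h : (WL F W).Point) + c ∧
      (c = 0 ∨ ∃ (x₀ y₀ : Ω) (h₀ : (WL F W).Nonsingular (algebraMap Ω F x₀) (algebraMap Ω F y₀)),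
        c = Affine.Point.some _ _ h₀)

/-- **EXR** (captain helper92): the ring of the endomorphisms over `K`. -/
def EXR : Prop :=
  ∀ (K : Type) [Field K] [CharZero K] (W : Affine K), W.IsElliptic →
    ∃ (R : Subring K) (ac : ∀ (F : Type) [Field F] [DecidableEq F] [Algebra K F],
      R →+* AddMonoid.End (WL F W).Point), RAct W R ac ∧ (EndsOverK W → RAll W R ac)

/-- the action on the `K`-points -/
def acK {K : Type} [Field K] [DecidableEq K] {W : Affine K} {R : Subring K}
    (ac : ∀ (F : Type) [Field F] [DecidableEq F] [Algebra K F],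
      R →+* AddMonoid.End (WL F W).Point) : R →+* AddMonoid.End W.Point :=
  ac K

/-- the action on sequences of `K`-points -/
def acS {K : Type} [Field K] [DecidableEq K] {W : Affine K} {R : Subring K}
    (ac : ∀ (F : Type) [Field F] [DecidableEq F] [Algebra K F],
      R →+* AddMonoid.End (WL F W).Point) : R →+* AddMonoid.End (ℕ → W.Point) :=
  Pool.Agent.Helper19.TG.sq (acK ac)

/-- **HTR** (helper92): heights of `ρ P`. -/
def HTR : Prop :=
  ∀ (K : Type) [Field K] [NumberField K] [DecidableEq K] (W : Affine K), W.IsElliptic →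
    ∀ (R : Subring K) (ac : ∀ (F : Type) [Field F] [DecidableEq F] [Algebra K F],
      R →+* AddMonoid.End (WL F W).Point), RAct W R ac →
    ∀ (H : W.Point → ℝ) (c₀ : ℝ), CanH W H c₀ → ∀ ρ : R, ρ ≠ 0 → ∃ n : ℕ, 1 ≤ n ∧
      ∀ P : W.Point, H (acK ac ρ P) = n * H P

/-- **P(r), R-version** (captain helper19) -/
def S_PRM : Prop :=
  ∀ (K : Type) [Field K] [NumberField K] [DecidableEq K] (ι : Type) [DecidableEq ι]
    (E : ι → Affine K), (∀ c, (E c).IsElliptic) →
    (∀ c c', c ≠ c' → NonIsog (E c) (E c')) →
    ∀ (R : ι → Subring K) (ac : ∀ (c : ι) (F : Type) [Field F] [DecidableEq F] [Algebra K F],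
      R c →+* AddMonoid.End (WL F (E c)).Point), (∀ c, RAct (E c) (R c) (ac c)) →
    ∀ (σ : Type) [Fintype σ] [DecidableEq σ]
    (cl : σ → ι), (∀ i k, i ≠ k → cl i = cl k → RAll (E (cl i)) (R (cl i)) (ac (cl i))) →
    ∀ (H : ∀ c, (E c).Point → ℝ) (c₀ : ℝ), (∀ c, CanH (E c) (H c) c₀) →
    ∀ (U : Ultrafilter ℕ) (y : ℕ → ∀ i, (E (cl i)).Point),
    UD (W := fun i => E (cl i)) U (nrs (W := fun i => E (cl i)) fun i => H (cl i)) y →
    ∀ (r : ℕ) (cl' : Fin r → ι) (n : ∀ j : Fin r, σ → R (cl' j)),
      TFamR (M := fun c => ℕ → (E c).Point) (fun c => acS (ac c))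
        (fun c => slowP U (fun k => nrs (W := fun i => E (cl i)) (fun i => H (cl i)) (y k)) (H c))
        cl' (fun j => cmbR (M := fun c => ℕ → (E c).Point) (fun c => acS (ac c)) cl
          (fun i k => y k i) (cl' j) (n j)) →
      Free U (fun k => nrs (W := fun i => E (cl i)) (fun i => H (cl i)) (y k))
        (fun j k => xc (cmbR (M := fun c => ℕ → (E c).Point) (fun c => acS (ac c)) cl
          (fun i k => y k i) (cl' j) (n j) k))

/-- **the end theorem, CM version** (captain helper60): all centres of codimension `≥ 2` in `∏ E_(cl i)`, the classes pairwise not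
isogenous, all endomorphisms of a curve which occurs twice are defined over `K`. -/
def S_TGM : Prop :=
  ∀ (K : Type) [Field K] [NumberField K] [DecidableEq K] (ι : Type) [DecidableEq ι]
    (E : ι → Affine K), (∀ c, (E c).IsElliptic) →
    (∀ c c', c ≠ c' → NonIsog (E c) (E c')) → ∀ (σ : Type) [Fintype σ] [DecidableEq σ]
    (cl : σ → ι), (∀ i k, i ≠ k → cl i = cl k → EndsOverK (E (cl i))) →
    MAINW K σ (fun i => E (cl i))

end

end Pool.Agent.Helper42.TG
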