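import Pool.Agent.Helper14.TG.LNK
import Pool.Agent.Helper19.TN.EndB
import Pool.Agent.Helper29.BL.QSN
import Pool.Agent.Helper60.SG2.NZFT

/-!
# Project TG (MP_a41896_nt), packet SLW: slow sequences of points are the constant points
-/

set_option autoImplicit false

open MvPolynomial

namespace Pool.Agent.Helper42.TG

open WeierstrassCurve Height
open Pool.Agent.Helper29.BL Pool.Agent.Helper92.Ru Pool.Agent.Helper42.SG
open Pool.Agent.Helper60.HC (Lo nrs xs)
open Pool.Agent.Helper60.T3 (WL zd IP)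
open Pool.Agent.Helper14.TG (sl sl_const sl_add sl_mul slow_range ev_const gl_eq_iff)

noncomputable section

theorem t_SLW : SLW := by
  intro K _ _ _ U T hT κ L _ _ _ _ _ _ _ hκ hL hKL W hW H c₀ hH φ hφ s
  have hT0 : ∀ᶠ k in (U : Filter ℕ), 0 ≤ T k := hT 0
  by_cases h0 : ∀ᶠ k in (U : Filter ℕ), s k = 0
  · have hφ0 : φ s = 0 := (hφ s).1.2 h0
    refine ⟨fun _ η hη => ?_, fun _ => Or.inl hφ0⟩
    filter_upwards [h0, hT0] with k hk hk0
    rw [hk, hH.quad.zero]
    positivity
  have h1 : ∀ᶠ k in (U : Filter ℕ), s k ≠ 0 := Ultrafilter.eventually_not.2 h0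
  have hφ1 : φ s ≠ 0 := fun h => h0 ((hφ s).1.1 h)
  have hnear : ∀ P, |H P - logHeight₁ (xc P)| ≤ c₀ := hH.near
  constructor
  · intro hI
    rcases hI with hI | ⟨⟨c, hc⟩, -⟩
    · exact absurd hI hφ1
    rw [(hφ s).2.1] at hc
    have hna : ¬ AlgebraicIndependent κ (fun _ : Unit => gl U L (fun k => xc (s k))) := by
      intro hai
      have h2 := hai.transcendental ()
      rw [← hc] at h2
      exact h2 (isAlgebraic_algebraMap c)
    rw [Pool.Agent.Helper14.TG.t_LNK K U T hT κ L hκ hL hKL Unit (fun _ k => xc (s k))] at hna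
    unfold Free at hna
    push Not at hna
    obtain ⟨D, hD⟩ := hna
    obtain ⟨C, hC, hroot⟩ := Pool.Agent.Helper19.TN.root K Unit D
    intro η hη
    have h3 : 0 < η / 3 := by positivity
    have h4 : ∀ᶠ k in (U : Filter ℕ), Lo Finset.univ D (η / 3 * T k) (fun _ : Unit => xc (s k)) :=
      hD _ h3
    filter_upwards [h4, ev_const hT C h3, ev_const hT c₀ h3] with k hk1 hk2 hk3
    have h5 : logHeight₁ (xc (s k)) ≤ η / 3 * T k + C :=
      hroot () _ (fun _ : Unit => xc (s k)) (by simpa using hk1)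
    have h6 := (abs_le.1 (hnear (s k))).2
    linarith
  · intro hs
    have hx : sl U T (fun k => xc (s k)) := by
      intro η hη
      have h3 : 0 < η / 2 := by positivity
      filter_upwards [hs _ h3, ev_const hT c₀ h3] with k hk1 hk2
      have h6 := (abs_le.1 (hnear (s k))).1
      linarith
    have hB : sl U T (fun k => Bf W (xc (s k))) := by
      have h2 : sl U T (fun k => xc (s k) * xc (s k)) := sl_mul hx hx
      have e : (fun k => Bf W (xc (s k))) = fun k => 4 * (xc (s k) * xc (s k) * xc (s k)) +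
          (W.b₂ * (xc (s k) * xc (s k)) + (2 * W.b₄ * xc (s k) + W.b₆)) := by
        funext k
        unfold Bf
        ring
      rw [e]
      exact sl_add hT (sl_mul (sl_const hT 4) (sl_mul h2 hx))
        (sl_add hT (sl_mul (sl_const hT _) h2) (sl_add hT (sl_mul (sl_const hT _) hx)
          (sl_const hT _)))
    have hps : sl U T (fun k => ps (s k)) := by
      intro η hη
      have h3 : 0 < 2 * η := by positivity
      filter_upwards [hB _ h3, h1] with k hk1 hk2
      rw [← Pool.Agent.Helper60.SG2.nzt_ps W (s k) hk2, logHeight₁_pow] at hk1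
      push_cast at hk1
      linarith
    obtain ⟨a, ha⟩ := slow_range hT hKL hx
    obtain ⟨b, hb⟩ := slow_range hT hKL hps
    refine Or.inr ⟨⟨a, ?_⟩, ⟨b, ?_⟩⟩
    · rw [ha, (hφ s).2.1]
    · rw [hb, (hφ s).2.2]

end

end Pool.Agent.Helper42.TG
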