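import Pool.Agent.Helper42.TG.Defs
import Pool.Agent.Helper19.TN.EndD

/-!
# Project TG (MP_a41896_nt): the interface between P(r) and END-G, and the end theorem
-/

set_option autoImplicit false

open MvPolynomial

namespace Pool.Agent.Helper42.TG

open WeierstrassCurve Height
open Pool.Agent.Helper29.BL Pool.Agent.Helper92.Ru Pool.Agent.Helper42.SG
open Pool.Agent.Helper60.HC (Lo nrs xs)
open Pool.Agent.Helper42.TN (NonIsog NoCM NotFlat)
open Pool.Agent.Helper19.TN (UD MAINW)

noncomputable section

/-- **P(r)** (captain helper19): along the ultrafilter, every totally fast family of integer combinations of the coordinates is free. -/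
def S_PR : Prop :=
  ∀ (K : Type) [Field K] [NumberField K] [DecidableEq K] (ι : Type) [DecidableEq ι]
    (E : ι → Affine K), (∀ c, (E c).IsElliptic) →
    (∀ c c', c ≠ c' → NonIsog (E c) (E c')) → ∀ (σ : Type) [Fintype σ] [DecidableEq σ]
    (cl : σ → ι), (∀ i k, i ≠ k → cl i = cl k → NoCM (E (cl i))) →
    ∀ (H : ∀ c, (E c).Point → ℝ) (c₀ : ℝ), (∀ c, CanH (E c) (H c) c₀) →
    ∀ (U : Ultrafilter ℕ) (y : ℕ → ∀ i, (E (cl i)).Point),
    UD (W := fun i => E (cl i)) U (nrs (W := fun i => E (cl i)) fun i => H (cl i)) y →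
    ∀ (r : ℕ) (cl' : Fin r → ι) (n : Fin r → σ → ℤ),
      TFam (M := fun c => ℕ → (E c).Point)
        (fun c => slowP U (fun k => nrs (W := fun i => E (cl i)) (fun i => H (cl i)) (y k)) (H c))
        cl' (fun j => cmb (M := fun c => ℕ → (E c).Point) cl (fun i k => y k i) (cl' j) (n j)) →
      Free U (fun k => nrs (W := fun i => E (cl i)) (fun i => H (cl i)) (y k))
        (fun j k => xc (cmb (M := fun c => ℕ → (E c).Point) cl (fun i k => y k i) (cl' j) (n j) k))

/-- **the end theorem** (END-G: from S_PR, P1S, EMS, TRANSFER): all centres of codimension `≥ 2` in `∏ E_(cl i)`, the classes pairwise not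
isogenous, no complex multiplication for a curve which occurs twice. -/
def S_TG : Prop :=
  ∀ (K : Type) [Field K] [NumberField K] [DecidableEq K] (ι : Type) [DecidableEq ι]
    (E : ι → Affine K), (∀ c, (E c).IsElliptic) →
    (∀ c c', c ≠ c' → NonIsog (E c) (E c')) → ∀ (σ : Type) [Fintype σ] [DecidableEq σ]
    (cl : σ → ι), (∀ i k, i ≠ k → cl i = cl k → NoCM (E (cl i))) →
    MAINW K σ (fun i => E (cl i))

end

end Pool.Agent.Helper42.TG
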