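import Pool.Agent.Helper42.TN.DefsF
import Pool.Agent.Helper60.T3.GoalsI

/-!
# Project TG (MP_a41896_nt): all centres of codimension `≥ 2` in products `∏ E_(cl i)`; definitions

`U` is an ultrafilter on `ℕ`, `T : ℕ → ℝ` a scale (`T → ∞` along `U`).  `GK K U` is the ultrapower of `K`.  An element of it is slow if
it is represented by `f` with `logHeight₁ (f k) ≤ η T k` for all `η > 0` and almost all `k`.  `κ` is the algebraic closure of the slow field in the
algebraically closed field `L ⊇ GK K U`.
-/

set_option autoImplicit false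

open MvPolynomial

namespace Pool.Agent.Helper42.TG

open WeierstrassCurve Height
open Pool.Agent.Helper29.BL Pool.Agent.Helper92.Ru Pool.Agent.Helper42.SG
open Pool.Agent.Helper60.HC (Lo nrs xs)
open Pool.Agent.Helper60.T3 (WL zd IP)
open Pool.Agent.Helper42.TN (NonIsog NoCM NotFlat)

noncomputable section

/-! ## Integer combinations inside the classes -/

/-- the combination `∑_(cl j = c) n_j w_j` in the class `c` -/
def cmb {ι τ : Type} [DecidableEq ι] [Fintype τ] {M : ι → Type} [∀ c, AddCommGroup (M c)]
    (cl : τ → ι) (w : ∀ j, M (cl j)) (c : ι) (n : τ → ℤ) : M c :=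
  ∑ j, if h : cl j = c then n j • (h ▸ w j : M c) else 0

/-- totally fast families: no combination in a class with a nonzero coefficient in the class is in `C c` -/
def TFam {ι τ : Type} [DecidableEq ι] [Fintype τ] {M : ι → Type} [∀ c, AddCommGroup (M c)]
    (C : ∀ c, Set (M c)) (cl : τ → ι) (w : ∀ j, M (cl j)) : Prop :=
  ∀ (c : ι) (n : τ → ℤ), (∃ j, cl j = c ∧ n j ≠ 0) → cmb cl w c n ∉ C c

/-! ## The ultrapower and the slow field -/

/-- the ultrapower of `K` -/
abbrev GK (K : Type) (U : Ultrafilter ℕ) : Type := Filter.Germ (U : Filter ℕ) K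

/-- the germ of a sequence -/
def gm {K : Type} (U : Ultrafilter ℕ) (f : ℕ → K) : GK K U := (f : Filter.Germ (U : Filter ℕ) K)

/-- slow elements -/
def slow {K : Type} [Field K] [NumberField K] (U : Ultrafilter ℕ) (T : ℕ → ℝ)
    (z : GK K U) : Prop :=
  ∃ f : ℕ → K, z = gm U f ∧ ∀ η : ℝ, 0 < η → ∀ᶠ k in (U : Filter ℕ), logHeight₁ (f k) ≤ η * T k

/-- `κ` is the algebraic closure of the slow field in the algebraically closed field `L ⊇ GK K U` -/
structure KL {K : Type} [Field K] [NumberField K] (U : Ultrafilter ℕ) (T : ℕ → ℝ)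
    (κ L : Type) [Field κ] [Field L] [Algebra (GK K U) L] [Algebra K κ] [Algebra κ L]
    [Algebra K L] : Prop where
  cst : ∀ a : K, algebraMap K L a = algebraMap (GK K U) L (gm U fun _ => a)
  rg : ∀ z : L, z ∈ Set.range (algebraMap κ L) ↔ ∃ p : Polynomial (GK K U), p ≠ 0 ∧
    (∀ i, slow U T (p.coeff i)) ∧ Polynomial.aeval z p = 0

section

variable {K : Type} [Field K] [NumberField K] (U : Ultrafilter ℕ) (T : ℕ → ℝ)

/-- the element of `L` given by a sequence -/
def gl (L : Type) [Field L] [Algebra (GK K U) L] (f : ℕ → K) : L :=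
  algebraMap (GK K U) L (gm U f)

/-- the slow sequences of points -/
def slowP {W : Affine K} (H : W.Point → ℝ) : Set (ℕ → W.Point) :=
  {s | ∀ η : ℝ, 0 < η → ∀ᶠ k in (U : Filter ℕ), H (s k) ≤ η * T k}

/-- the coordinates of the family `s` are free: no relation of bounded degree and slow height -/
def Free {τ : Type} [Fintype τ] (s : τ → ℕ → K) : Prop :=
  ∀ D : ℕ, ∃ η : ℝ, 0 < η ∧ ∀ᶠ k in (U : Filter ℕ),
    ¬ Lo Finset.univ D (η * T k) (fun j => s j k)

end

/-! ## Statements: the ultrapower -/

/-- **KLX**: existence of `κ`, `L`. No hypotheses.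
PROOF. `L := AlgebraicClosure (GK K U)` (`GK K U` is a field: Mathlib, `Filter.Germ` over an ultrafilter). The slow elements form a subfield `F`: `logHeight₁ (a + b) ≤ logHeight₁ a + logHeight₁ b + C`, `logHeight₁ (a b) ≤ logHeight₁ a + logHeight₁ b`, `logHeight₁ a⁻¹ = logHeight₁ a`, and constants are `≤ η T k` for almost all `k` (`T → ∞` along `U`);
the constants of `K` are slow. `κ := algebraicClosure F L` (Mathlib: `algebraicClosure F L : IntermediateField F L`, algebraically closed because `L` is). Algebra `K κ`: `K → F → κ`, the tower. `rg`: `z ∈ κ` iff `z` is algebraic over `F` iff there is `p ∈ F[X]`, `p ≠ 0`, `p(z) = 0` (map the coefficients into `GK K U`; conversely lift the coefficients). -/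
def KLX : Prop :=
  ∀ (K : Type) [Field K] [NumberField K] (U : Ultrafilter ℕ) (T : ℕ → ℝ),
    (∀ R : ℝ, ∀ᶠ k in (U : Filter ℕ), R ≤ T k) →
    ∃ (κ L : Type) (_ : Field κ) (_ : Field L) (_ : Algebra (GK K U) L) (_ : Algebra K κ)
      (_ : Algebra κ L) (_ : Algebra K L), IsAlgClosed κ ∧ IsAlgClosed L ∧ IsScalarTower K κ L ∧
      KL (K := K) U T κ L

/-- **LNK**: algebraic independence over `κ` means free. No hypotheses.
PROOF. (→) Suppose not `Free`: there is `D` such that for all `η > 0`, for almost all `k` (ultrafilter) `Lo univ D (η T k) (s k)`. For every `k` for which there is a relation `g ≠ 0` of degrees `≤ D`, `g(s(k)) = 0` choose one, `g_k`, with `log PH g_k ≤ inf + 1` (the infimum over the relations of degree `≤ D` of `log PH ≥ 0`); for almost all `k` it exists and for every `η > 0` `log PH g_k ≤ η T k + 1` for almost all `k`. Divide by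
a nonzero coefficient: some coefficient is `1` (its monomial `m_k` is one of finitely many; `PH` does not change). All coefficients have `logHeight₁ ≤ log PH g_k` (`Helper60.T3.S_MC`, landed `Pool/Agent/Helper8/T3/MC.lean`). So the germs of the coefficients `k ↦ coeff m g_k` are slow, one of them (the monomial `m` with `m_k = m` for almost all `k`) is `1`, and `∑_m germ (coeff m g_k) ∏ s*^m = 0`: a nontrivial relation
with slow coefficients, which are in the range of `κ` (`KL.rg` with `p = X - c`). Contradiction.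
(←) Suppose the elements `gl (s j)` are algebraically dependent over `κ`. Then they are dependent over the slow field `F` (as in KLX; `κ` is algebraic over `F`: `AlgebraicIndependent` and algebraic extensions, transcendence degree): `p ≠ 0` with slow coefficients, `p(s*) = 0`. Representatives of the coefficients: `p_k ∈ K[X]`, degrees `≤ D`, `p_k ≠ 0`, `p_k(s(k)) = 0` for almost all `k`, and `log PH p_k ≤ ∑_m logHeight₁ (coeff m p_k) ≤ η T k`
for almost all `k` (`PH ≤ ∏ mulHeight₁`: at every place the maximum of the coefficients is `≤ ∏ max(1, v c)`; product formula not needed). This contradicts `Free` for `D`. -/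
def LNK : Prop :=
  ∀ (K : Type) [Field K] [NumberField K] (U : Ultrafilter ℕ) (T : ℕ → ℝ),
    (∀ R : ℝ, ∀ᶠ k in (U : Filter ℕ), R ≤ T k) →
    ∀ (κ L : Type) [Field κ] [Field L] [Algebra (GK K U) L] [Algebra K κ] [Algebra κ L]
      [Algebra K L], IsAlgClosed κ → IsAlgClosed L → KL (K := K) U T κ L →
      ∀ (τ : Type) [Fintype τ] (s : τ → ℕ → K),
        AlgebraicIndependent κ (fun j => gl U L (s j)) ↔ Free U T s

/-- **GPT**: the point of the ultrapower given by a sequence of points. No hypotheses.
PROOF. For `s : ℕ → W.Point`: if `s k = 0` for almost all `k` let `φ s = 0`, otherwise `s k ≠ 0` for almost all `k` (ultrafilter) and `φ s := some (gl x) (gl y)` with `x k, y k` the coordinates (`0` if `s k = 0`): the equation and nonsingularity hold for almost all `k`, so in `GK K U` (a polynomial identity/inequality of germs), so in `L`. `xc`, `ps` of `Helper29.BL` (`xc 0 = 0`, `ps 0 = 0` or the values there; `ps P = 2y + a₁x + a₃`).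
ADDITIVE: for `s, t` one of the cases holds for almost all `k` (ultrafilter, finitely many cases): `s k = 0`; `t k = 0`; `s k = - t k`; `s k = t k ≠ - t k`; `x(s k) ≠ x(t k)`. In each case the formulas of `Affine.Point.add` (`add_some`, `slope`, `addX`, `addY`; `Affine.Point.add_of_..` lemmas) are the same in `K` and in `L` (germs: `slope` is a quotient of polynomials in the coordinates; the condition `x₁ = x₂` etc. passes to germs because
it holds almost everywhere or fails almost everywhere). (Or: the map `(ℕ → K) → GK K U → L` is a ring homomorphism; work with `Affine.Point.map`-like arguments.) -/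
def GPT : Prop :=
  ∀ (K : Type) [Field K] [NumberField K] [DecidableEq K] (U : Ultrafilter ℕ) (L : Type)
    [Field L] [DecidableEq L] [Algebra (GK K U) L] [Algebra K L],
    (∀ a : K, algebraMap K L a = algebraMap (GK K U) L (gm U fun _ => a)) →
    ∀ W : Affine K, W.IsElliptic → ∃ φ : (ℕ → W.Point) →+ (WL L W).Point,
      ∀ s : ℕ → W.Point, (φ s = 0 ↔ ∀ᶠ k in (U : Filter ℕ), s k = 0) ∧
        xc (φ s) = gl U L (fun k => xc (s k)) ∧ ps (φ s) = gl U L (fun k => ps (s k))

/-- **SLW**: slow sequences of points are the constant points. No hypotheses.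
PROOF. `CanH`: `|H (P) - logHeight₁ (xc P)| ≤ c₀` up to the normalisation there (for `P ≠ 0`; `H 0 = 0`). If `s k = 0` for almost all `k` both sides hold. Otherwise `s k ≠ 0` for almost all `k`, `φ s ≠ 0`. (←) the germ of `xc (s k)` is slow, so `xc (φ s)` is in the range of `κ` (`rg` with `p = X - c`), and `ps (φ s)² = B(xc (φ s))`, `κ` algebraically closed: `ps (φ s)` is in the range.
(→) `xc (φ s) = gl (xc s) ∈ κ`: `rg`: `p ≠ 0` with slow coefficients, `p(gl (xc s)) = 0`, so `p(germ) = 0` in `GK K U` (`algebraMap` injective). Representatives `p_k ≠ 0` of degree `≤ n`, root `xc (s k)` for almost all `k`, all coefficients of height `≤ η T k`: `logHeight₁ (root) ≤ C + ∑ logHeight₁ (coefficients)` (a root of `∑ a_i X^i`: `v(root) ≤ cst v n * max_(i<n) v(a_i)/v(a_n)` or `≤ 1`; landed height of roots lemmas, or `Lo`-type lemma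
in `Helper19/TN/EndB.lean`: a polynomial in one variable). -/
def SLW : Prop :=
  ∀ (K : Type) [Field K] [NumberField K] [DecidableEq K] (U : Ultrafilter ℕ) (T : ℕ → ℝ),
    (∀ R : ℝ, ∀ᶠ k in (U : Filter ℕ), R ≤ T k) →
    ∀ (κ L : Type) [Field κ] [Field L] [DecidableEq L] [Algebra (GK K U) L] [Algebra K κ]
      [Algebra κ L] [Algebra K L], IsAlgClosed κ → IsAlgClosed L → KL (K := K) U T κ L →
      ∀ W : Affine K, W.IsElliptic → ∀ (H : W.Point → ℝ) (c₀ : ℝ), CanH W H c₀ →
      ∀ φ : (ℕ → W.Point) →+ (WL L W).Point,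
      (∀ s : ℕ → W.Point, (φ s = 0 ↔ ∀ᶠ k in (U : Filter ℕ), s k = 0) ∧
        xc (φ s) = gl U L (fun k => xc (s k)) ∧ ps (φ s) = gl U L (fun k => ps (s k))) →
      ∀ s : ℕ → W.Point, IP (Set.range (algebraMap κ L)) (φ s) ↔ s ∈ slowP U T H

/-! ## Statements: the flat direction, the claim -/

/-- **FLAT** (captain helper68): if almost all `g_k` are flat then there is a derivation with constant directions at the point of the ultrapower. -/
def S_FLAT : Prop :=
  ∀ (K : Type) [Field K] [NumberField K] [DecidableEq K] (U : Ultrafilter ℕ) (T : ℕ → ℝ),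
    (∀ R : ℝ, ∀ᶠ k in (U : Filter ℕ), R ≤ T k) →
    ∀ (κ L : Type) [Field κ] [Field L] [Algebra (GK K U) L] [Algebra K κ]
      [Algebra κ L] [Algebra K L] [IsScalarTower K κ L], IsAlgClosed κ → IsAlgClosed L →
      KL (K := K) U T κ L →
      ∀ (τ : Type) [Fintype τ] [DecidableEq τ] (W : τ → Affine K), (∀ j, (W j).IsElliptic) →
      ∀ (w : ℕ → ∀ j, (W j).Point) (g : ℕ → MvPolynomial τ K) (D0 : ℕ) (a : τ),
        (∀ᶠ k in (U : Filter ℕ), (∀ j, w k j ≠ 0 ∧ ps (w k j) ≠ 0) ∧ Irreducible (g k) ∧
          (∀ j, degreeOf j (g k) ≤ D0) ∧ (∀ j, degreeOf j (g k) ≠ 0) ∧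
          eval (xs (w k)) (g k) = 0 ∧ eval (xs (w k)) (pderiv a (g k)) ≠ 0 ∧
          ¬ NotFlat W (g k)) →
        (∀ η : ℝ, 0 < η → ∀ᶠ k in (U : Filter ℕ), Real.log (PH (g k)) ≤ η * T k) →
        AlgebraicIndependent κ (fun j : {j : τ // j ≠ a} => gl U L (fun k => xc (w k j))) →
        ∃ (D : Derivation κ L L) (α : τ → κ), α ≠ 0 ∧ ∀ j,
          D (gl U L (fun k => xc (w k j))) =
            algebraMap κ L (α j) * gl U L (fun k => ps (w k j))

/-- **CLAIM** (captain helper42): a totally fast dependent family has no derivation with constant directions, if all smaller totally fast families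
of combinations are independent. -/
def S_CLAIM : Prop :=
  ∀ (K κ L : Type) [Field K] [CharZero K] [Field κ] [IsAlgClosed κ] [Field L] [IsAlgClosed L]
    [DecidableEq L] [Algebra K κ] [Algebra κ L] [Algebra K L] [IsScalarTower K κ L]
    (ι : Type) [DecidableEq ι] (E : ι → Affine K), (∀ c, (E c).IsElliptic) →
    (∀ c c', c ≠ c' → NonIsog (E c) (E c')) → ∀ (τ : Type) [Fintype τ] [DecidableEq τ]
    (cl : τ → ι), (∀ i k, i ≠ k → cl i = cl k → NoCM (E (cl i))) →
    ∀ w : ∀ j, (WL L (E (cl j))).Point,
    TFam (M := fun c => (WL L (E c)).Point)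
      (fun c => {P | IP (Set.range (algebraMap κ L)) P}) cl w →
    (∀ ρ < Fintype.card τ, ∀ (cl' : Fin ρ → ι) (n : Fin ρ → τ → ℤ),
      TFam (M := fun c => (WL L (E c)).Point) (fun c => {P | IP (Set.range (algebraMap κ L)) P})
        cl' (fun i => cmb (M := fun c => (WL L (E c)).Point) cl w (cl' i) (n i)) →
      AlgebraicIndependent κ
        (fun i => xc (cmb (M := fun c => (WL L (E c)).Point) cl w (cl' i) (n i)))) →
    ¬ AlgebraicIndependent κ (fun j => xc (w j)) →
    ∀ (D : Derivation κ L L) (α : τ → κ),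
      (∀ j, D (xc (w j)) = algebraMap κ L (α j) * ps (w j)) → α = 0

end

end Pool.Agent.Helper42.TG
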