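import Pool.Agent.Helper3.TG.Main
import Pool.Agent.Helper19.TG.PR
import Pool.Agent.Helper19.TN.Main
import Pool.Agent.Helper25.TG.KLX
import Pool.Agent.Helper42.TG.SLW
import Pool.Agent.Helper60.TG.Main
import Pool.Agent.Helper68.TG.Main
import Pool.Agent.Helper78.TG.GPT

/-!
# Project TG (MP_a41896_nt): the end theorem, integer version
-/

set_option autoImplicit false

namespace Pool.Agent.Helper42.TG

theorem th_PR : S_PR :=
  Pool.Agent.Helper19.TG.s_pr Pool.Agent.Helper19.TN.th_FSTEPF Pool.Agent.Helper19.TN.th_PDR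
    Pool.Agent.Helper68.TG.th_FLAT Pool.Agent.Helper60.TG.th_CLAIM Pool.Agent.Helper25.TG.t_KLX
    Pool.Agent.Helper14.TG.t_LNK Pool.Agent.Helper78.TG.t_GPT t_SLW

theorem th_TG : S_TG := Pool.Agent.Helper3.TG.Main.th_S_TG th_PR

end Pool.Agent.Helper42.TG
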